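import Pool.Agent.Helper58.PB.StS

/-!
# Project PB, module ZFN: final statement of part Z
-/

set_option autoImplicit false

namespace Pool.Agent.Helper32.PB

open Finset
open Pool.Agent.Helper48.BK (ex th Sx)
open Pool.Agent.Helper23.MV (PCh PS ZF ZS mwt OKb mz)
open Pool.Agent.Helper58.PB

/-- the trivial primitive character -/
private noncomputable def c0_ZFN : PCh :=
  ⟨1, one_ne_zero, 1, by rw [DirichletCharacter.isPrimitive_def, DirichletCharacter.conductor_one]⟩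

private theorem triv_eq_ZFN (c : PCh) (h : c.χ = 1) : c = c0_ZFN := by
  obtain ⟨r, hr, χ, pr⟩ := c
  change χ = 1 at h
  subst h
  have : NeZero r := ⟨hr⟩
  have e1 : r = 1 := by
    rw [DirichletCharacter.isPrimitive_def, DirichletCharacter.conductor_one] at pr
    exact pr.symm
  subst e1
  rfl

private theorem c0_ev_ZFN (u : ℕ) : c0_ZFN.ev u = 1 := by
  show (1 : DirichletCharacter ℂ 1) ((u : ZMod 1)) = 1
  have : (u : ZMod 1) = 1 := Subsingleton.elim _ _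
  rw [this]
  exact map_one _

private theorem chi_iff_ZFN (c : PCh) : (c.χ = 1) = (c = c0_ZFN) := by
  apply propext
  constructor
  · exact triv_eq_ZFN c
  · intro h
    rw [h]
    rfl

private theorem ev_norm_ZFN (c : PCh) (u : ℕ) : ‖c.ev u‖ ≤ 1 := by
  show ‖c.χ (u : ZMod c.r)‖ ≤ 1
  exact DirichletCharacter.norm_le_one _ _

/-- average of the main weight -/
private noncomputable def Mc_ZFN (o : Option (PCh × ℝ)) (c : PCh) (L n : ℕ) : ℝ :=
  (1 / (L : ℝ)) * ∑ j ∈ range L, mwt o c ((n - j : ℕ) : ℝ)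

open Classical in
private theorem M_none_ZFN (c : PCh) (L n : ℕ) (hL : 1 ≤ L) :
    Mc_ZFN none c L n = (if c = c0_ZFN then 1 else 0) - 0 := by
  have hL' : (L : ℝ) ≠ 0 := by
    have : 0 < L := hL
    positivity
  unfold Mc_ZFN mwt
  simp only [chi_iff_ZFN, sub_zero]
  rw [sum_const, card_range, nsmul_eq_mul]
  field_simp

open Classical in
private theorem M_some_ZFN (e c : PCh) (δ : ℝ) (L n : ℕ) (hL : 1 ≤ L) :
    Mc_ZFN (some (e, δ)) c L n = (if c = c0_ZFN then 1 else 0) -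
      (if c = e then (1 / (L : ℝ)) * ∑ j ∈ range L, ((n - j : ℕ) : ℝ) ^ (-δ) else 0) := by
  have hL' : (L : ℝ) ≠ 0 := by
    have : 0 < L := hL
    positivity
  unfold Mc_ZFN mwt
  simp only [chi_iff_ZFN]
  rw [sum_sub_distrib, sum_const, card_range, nsmul_eq_mul]
  by_cases h : c = e
  · simp only [h, if_true]
    field_simp
  · simp only [h, if_false, sum_const_zero, sub_zero]
    field_simp

/-- bound of the exceptional part -/
private theorem exc_ZFN {Z δ m : ℝ} (hZ : 1 < Z) (hδ : 0 < δ) (hm0 : 0 < m) (hm1 : m ≤ 1)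
    (hm : m ≤ δ * Real.log Z) (L n : ℕ) (hL : 1 ≤ L) (hLn : 2 * (L : ℝ) ≤ n)
    (hn : 2 * √Z ≤ n) :
    |(1 / (L : ℝ)) * ∑ j ∈ range L, ((n - j : ℕ) : ℝ) ^ (-δ)| ≤ 1 - 3 / 8 * m := by
  have hL' : (0 : ℝ) < L := by
    have : 0 < L := hL
    positivity
  have hs : 0 < √Z := Real.sqrt_pos.2 (by linarith)
  have h0 : 0 ≤ (1 / (L : ℝ)) * ∑ j ∈ range L, ((n - j : ℕ) : ℝ) ^ (-δ) := by
    refine mul_nonneg (by positivity) (sum_nonneg fun j _ => Real.rpow_nonneg (Nat.cast_nonneg _) _)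
  rw [abs_of_nonneg h0]
  have h1 : ∀ j ∈ range L, ((n - j : ℕ) : ℝ) ^ (-δ) ≤ 1 - 3 / 8 * m := by
    intro j hj
    have hj' : (j : ℝ) ≤ L := by
      exact_mod_cast (mem_range.1 hj).le
    have e1 : √Z ≤ ((n - j : ℕ) : ℝ) := by
      have : j ≤ n := by
        have : (j : ℝ) ≤ n := by linarith
        exact_mod_cast this
      rw [Nat.cast_sub this]
      linarith
    have e2 : ((n - j : ℕ) : ℝ) ^ (-δ) ≤ (√Z) ^ (-δ) :=
      Real.rpow_le_rpow_of_nonpos hs e1 (by linarith)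
    have e3 : (√Z) ^ (-δ) = Real.exp (-(δ * Real.log Z / 2)) := by
      rw [Real.rpow_def_of_pos hs, Real.log_sqrt (by linarith)]
      congr 1
      ring
    have e4 : Real.exp (-(δ * Real.log Z / 2)) ≤ Real.exp (-(m / 2)) :=
      Real.exp_le_exp.2 (by linarith)
    have e5 : Real.exp (-(m / 2)) ≤ 1 - 3 / 8 * m := by
      have q := Real.quadratic_le_exp_of_nonneg (x := m / 2) (by positivity)
      rw [Real.exp_neg]
      rw [inv_le_iff_one_le_mul₀ (Real.exp_pos _)]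
      have hp : 0 < 1 - 3 / 8 * m := by linarith
      have : (1 : ℝ) ≤ (1 - 3 / 8 * m) * (1 + m / 2 + (m / 2) ^ 2 / 2) := by
        have h3 : 0 ≤ m * (8 - 4 * m - 3 * m ^ 2) := by
          apply mul_nonneg hm0.le
          nlinarith
        nlinarith
      calc (1 : ℝ) ≤ (1 - 3 / 8 * m) * (1 + m / 2 + (m / 2) ^ 2 / 2) := this
        _ ≤ (1 - 3 / 8 * m) * Real.exp (m / 2) := mul_le_mul_of_nonneg_left q hp.le
    calc ((n - j : ℕ) : ℝ) ^ (-δ) ≤ (√Z) ^ (-δ) := e2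
      _ = Real.exp (-(δ * Real.log Z / 2)) := e3
      _ ≤ _ := e4.trans e5
  have h2 : ∑ j ∈ range L, ((n - j : ℕ) : ℝ) ^ (-δ) ≤ L * (1 - 3 / 8 * m) := by
    calc ∑ j ∈ range L, ((n - j : ℕ) : ℝ) ^ (-δ) ≤ ∑ j ∈ range L, (1 - 3 / 8 * m) := sum_le_sum h1
      _ = L * (1 - 3 / 8 * m) := by rw [sum_const, card_range, nsmul_eq_mul]
  calc (1 / (L : ℝ)) * ∑ j ∈ range L, ((n - j : ℕ) : ℝ) ^ (-δ) ≤ (1 / (L : ℝ)) * (L * (1 - 3 / 8 * m)) :=
        mul_le_mul_of_nonneg_left h2 (by positivity)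
    _ = 1 - 3 / 8 * m := by field_simp

open Classical in
private theorem key_ZFN {K η C δ₀ Z P m : ℝ} (o : Option (PCh × ℝ)) (g : PCh → ℕ → ℕ → ℝ)
    (hF : ∀ (Q : ℝ) (c : PCh), c ∈ PS Q ↔ (c.r : ℝ) ≤ Q)
    (hcard : ((PS P).card : ℝ) ≤ P ^ 2)
    (hA : ∀ (c : PCh) (n L : ℕ), (c.r : ℝ) ≤ Z ^ (η / 400) → Z ^ (3 / 5 : ℝ) ≤ n →
      (n : ℝ) ≤ Z ^ (2 * K) → 1 ≤ L → L ≤ n →
      ‖Av c L n - ((Mc_ZFN o c L n : ℝ) : ℂ)‖ ≤
        C * (ZS o c (2 * η) Z (√Z) + (n : ℝ) / L * Z ^ (-(η / 10))))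
    (hT : ∀ (β : ℝ) (Y y : ℕ), Z ≤ Y → (Y : ℝ) ≤ Z ^ K → y ≤ Y → |β| ≤ P ^ 20 / Y →
      ∑ c ∈ PS P, ‖Tc c y β‖ ≤ 5 * Y)
    (hK : 2 ≤ K) (hη0 : 0 < η) (hη1 : η ≤ 1 / 100) (hC : 1 ≤ C) (hδ0 : 0 < δ₀)
    (hδ1 : δ₀ ≤ η / 100000) (hZ2 : 2 ≤ Z) (hZC : 400 * C ≤ Z ^ (η / 20))
    (hZ4 : 4 ≤ Z ^ (δ₀ / 400)) (hP1 : Z ^ (δ₀ / 2) ≤ P) (hP2 : P ≤ Z ^ δ₀)
    (hm0 : 0 < m) (hm1 : m ≤ 1) (hmP : P ^ (-(1 / 100) : ℝ) ≤ m ^ 2)
    (hsum : ∑ c ∈ PS P, ZS o c (2 * η) Z (√Z) ≤ 1 / (100 * C) * m ^ 2)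
    (hg : ∀ (L n : ℕ), 1 ≤ L → 2 * (L : ℝ) ≤ n → 2 * √Z ≤ n →
      (∀ c : PCh, Mc_ZFN o c L n = (if c = c0_ZFN then 1 else 0) - g c L n) ∧
      ∑ c ∈ PS P, |g c L n| ≤ 1 - 3 / 8 * m) :
    P ^ (-(1 / 100) : ℝ) ≤ 3 / 10 * m ∧ 3 / 10 * m ≤ 1 ∧ Dat K Z P (3 / 10 * m) := by
  have hZ0 : 0 < Z := by linarith
  have hZ1 : 1 ≤ Z := by linarith
  have hP200 : 4 ≤ P ^ (1 / 200 : ℝ) := by
    calc (4 : ℝ) ≤ Z ^ (δ₀ / 400) := hZ4
      _ = (Z ^ (δ₀ / 2)) ^ (1 / 200 : ℝ) := by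
          rw [← Real.rpow_mul hZ0.le]
          congr 1
          ring
      _ ≤ P ^ (1 / 200 : ℝ) := Real.rpow_le_rpow (by positivity) hP1 (by norm_num)
  have hPpos : 0 < P := lt_of_lt_of_le (by positivity) hP1
  have hP1' : 1 ≤ P := by
    calc (1 : ℝ) ≤ Z ^ (δ₀ / 2) := Real.one_le_rpow hZ1 (by positivity)
      _ ≤ P := hP1
  have hP4 : 4 ≤ P := by
    calc (4 : ℝ) ≤ P ^ (1 / 200 : ℝ) := hP200
      _ ≤ P ^ (1 : ℝ) := Real.rpow_le_rpow_of_exponent_le hP1' (by norm_num)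
      _ = P := Real.rpow_one P
  refine ⟨?_, by linarith, ?_⟩
  · -- lower bound of t
    have hs0 : 0 < P ^ (-(1 / 200) : ℝ) := Real.rpow_pos_of_pos hPpos _
    have hs1 : P ^ (-(1 / 100) : ℝ) = P ^ (-(1 / 200) : ℝ) * P ^ (-(1 / 200) : ℝ) := by
      rw [← Real.rpow_add hPpos]
      congr 1
      norm_num
    have hs2 : P ^ (-(1 / 200) : ℝ) ≤ 1 / 4 := by
      rw [Real.rpow_neg hPpos.le, ← one_div]
      exact one_div_le_one_div_of_le (by norm_num) hP200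
    have hs3 : P ^ (-(1 / 200) : ℝ) ≤ m := by
      by_contra hcon
      push Not at hcon
      nlinarith
    rw [hs1]
    nlinarith
  · intro X L hX1 hX2 hL1 hL2
    have hXpos : (0 : ℝ) < X := by linarith
    refine ⟨?_, fun y β hy hβ => hT β X y hX1 hX2 hy hβ⟩
    intro n hn1 hn2
    have hn2' : (n : ℝ) ≤ 2 * X := by exact_mod_cast hn2
    have hn35 : Z ^ (3 / 5 : ℝ) ≤ n := by
      calc Z ^ (3 / 5 : ℝ) ≤ Z ^ (1 - δ₀) := Real.rpow_le_rpow_of_exponent_le hZ1 (by linarith)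
        _ = Z / Z ^ δ₀ := by rw [Real.rpow_sub hZ0, Real.rpow_one]
        _ ≤ X / P := div_le_div₀ hXpos.le hX1 hPpos hP2
        _ ≤ n := hn1
    have hn2K : (n : ℝ) ≤ Z ^ (2 * K) := by
      calc (n : ℝ) ≤ 2 * X := hn2'
        _ ≤ Z * Z ^ K := mul_le_mul hZ2 hX2 hXpos.le hZ0.le
        _ = Z ^ (1 + K) := by rw [Real.rpow_add hZ0, Real.rpow_one]
        _ ≤ Z ^ (2 * K) := Real.rpow_le_rpow_of_exponent_le hZ1 (by linarith)
    have hPP : P ^ 202 ≤ Z ^ (202 * η / 100000) := by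
      calc P ^ 202 ≤ (Z ^ δ₀) ^ 202 := pow_le_pow_left₀ hPpos.le hP2 _
        _ = Z ^ (202 * δ₀) := by
            rw [← Real.rpow_natCast, ← Real.rpow_mul hZ0.le]
            congr 1
            push_cast
            ring
        _ ≤ Z ^ (202 * η / 100000) := Real.rpow_le_rpow_of_exponent_le hZ1 (by linarith)
    have hL0 : (0 : ℝ) < L := lt_of_lt_of_le (by positivity) hL1
    have hL1' : 1 ≤ L := by
      have : 0 < L := by exact_mod_cast hL0
      exact this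
    have hPpow : 2 * P ≤ P ^ 200 := by
      have : (2 : ℝ) ≤ P ^ 199 := by
        calc (2 : ℝ) ≤ P := by linarith
          _ = P ^ 1 := (pow_one P).symm
          _ ≤ P ^ 199 := pow_le_pow_right₀ hP1' (by norm_num)
      calc 2 * P ≤ P ^ 199 * P := mul_le_mul_of_nonneg_right this hPpos.le
        _ = P ^ 200 := by ring
    have hLn : 2 * (L : ℝ) ≤ n := by
      calc 2 * (L : ℝ) ≤ 2 * (X / P ^ 200) := by linarith
        _ ≤ 2 * (X / (2 * P)) := by
            apply mul_le_mul_of_nonneg_left _ (by norm_num)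
            exact div_le_div_of_nonneg_left hXpos.le (by positivity) hPpow
        _ = X / P := by field_simp
        _ ≤ n := hn1
    have hLn' : L ≤ n := by
      have : (L : ℝ) ≤ n := by linarith
      exact_mod_cast this
    have hnL : (n : ℝ) / L ≤ 4 * P ^ 200 := by
      rw [div_le_iff₀ hL0]
      calc (n : ℝ) ≤ 2 * X := hn2'
        _ = 4 * P ^ 200 * (X / (2 * P ^ 200)) := by field_simp; norm_num
        _ ≤ 4 * P ^ 200 * L := mul_le_mul_of_nonneg_left hL1 (by positivity)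
    have hnZ : 2 * √Z ≤ n := by
      have h1 : (2 : ℝ) ≤ Z ^ (1 / 10 : ℝ) := by
        calc (2 : ℝ) ≤ 400 * C := by linarith
          _ ≤ Z ^ (η / 20) := hZC
          _ ≤ Z ^ (1 / 10 : ℝ) := Real.rpow_le_rpow_of_exponent_le hZ1 (by linarith)
      calc 2 * √Z ≤ Z ^ (1 / 10 : ℝ) * √Z := mul_le_mul_of_nonneg_right h1 (Real.sqrt_nonneg _)
        _ = Z ^ (3 / 5 : ℝ) := by
            rw [Real.sqrt_eq_rpow, ← Real.rpow_add hZ0]
            congr 1
            norm_num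
        _ ≤ n := hn35
    obtain ⟨hM, hgs⟩ := hg L n hL1' hLn hnZ
    have hr : ∀ c ∈ PS P, (c.r : ℝ) ≤ Z ^ (η / 400) := by
      intro c hc
      calc (c.r : ℝ) ≤ P := (hF P c).1 hc
        _ ≤ Z ^ δ₀ := hP2
        _ ≤ Z ^ (η / 400) := Real.rpow_le_rpow_of_exponent_le hZ1 (by linarith)
    have hW : 400 * C * (P ^ 202 * Z ^ (-(η / 10))) ≤ m ^ 2 := by
      calc 400 * C * (P ^ 202 * Z ^ (-(η / 10)))
          ≤ Z ^ (η / 20) * (Z ^ (202 * η / 100000) * Z ^ (-(η / 10))) := by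
            gcongr
        _ = Z ^ (η / 20 + (202 * η / 100000 + -(η / 10))) := by
            rw [Real.rpow_add hZ0, Real.rpow_add hZ0]
        _ ≤ Z ^ (-(δ₀ / 100)) := Real.rpow_le_rpow_of_exponent_le hZ1 (by linarith)
        _ = (Z ^ δ₀) ^ (-(1 / 100) : ℝ) := by
            rw [← Real.rpow_mul hZ0.le]
            congr 1
            ring
        _ ≤ P ^ (-(1 / 100) : ℝ) := Real.rpow_le_rpow_of_nonpos hPpos hP2 (by norm_num)
        _ ≤ m ^ 2 := hmP
    have herr : ∑ c ∈ PS P, ‖Av c L n - ((Mc_ZFN o c L n : ℝ) : ℂ)‖ ≤ m ^ 2 / 50 := by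
      have hZp : 0 < Z ^ (-(η / 10)) := Real.rpow_pos_of_pos hZ0 _
      calc ∑ c ∈ PS P, ‖Av c L n - ((Mc_ZFN o c L n : ℝ) : ℂ)‖
          ≤ ∑ c ∈ PS P, C * (ZS o c (2 * η) Z (√Z) + 4 * P ^ 200 * Z ^ (-(η / 10))) := by
            refine sum_le_sum fun c hc => ?_
            refine (hA c n L (hr c hc) hn35 hn2K hL1' hLn').trans ?_
            apply mul_le_mul_of_nonneg_left _ (by linarith)
            have := mul_le_mul_of_nonneg_right hnL hZp.le
            linarith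
        _ = C * ∑ c ∈ PS P, ZS o c (2 * η) Z (√Z) +
              (PS P).card * (C * (4 * P ^ 200 * Z ^ (-(η / 10)))) := by
            rw [← mul_sum, sum_add_distrib, sum_const, nsmul_eq_mul]
            ring
        _ ≤ C * (1 / (100 * C) * m ^ 2) + P ^ 2 * (C * (4 * P ^ 200 * Z ^ (-(η / 10)))) := by
            apply add_le_add
            · exact mul_le_mul_of_nonneg_left hsum (by linarith)
            · exact mul_le_mul_of_nonneg_right hcard (by positivity)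
        _ = m ^ 2 / 100 + 400 * C * (P ^ 202 * Z ^ (-(η / 10))) / 100 := by
            have : C ≠ 0 := by linarith
            field_simp
            ring
        _ ≤ m ^ 2 / 100 + m ^ 2 / 100 := by linarith
        _ = m ^ 2 / 50 := by ring
    have hc0 : c0_ZFN ∈ PS P := by
      rw [hF]
      show ((1 : ℕ) : ℝ) ≤ P
      simpa using hP1'
    have hone : ∑ c ∈ PS P, (if c = c0_ZFN then (1 : ℝ) else 0) = 1 := by
      rw [sum_ite_eq' (PS P) c0_ZFN (fun _ => (1 : ℝ)), if_pos hc0]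
    have hmm : m ^ 2 ≤ m := by nlinarith
    constructor
    · calc ∑ c ∈ PS P, ‖Av c L n‖
          ≤ ∑ c ∈ PS P, (‖Av c L n - ((Mc_ZFN o c L n : ℝ) : ℂ)‖ +
              ((if c = c0_ZFN then (1 : ℝ) else 0) + |g c L n|)) := by
            refine sum_le_sum fun c _ => ?_
            have h1 : ‖Av c L n‖ ≤ ‖Av c L n - ((Mc_ZFN o c L n : ℝ) : ℂ)‖ +
                ‖((Mc_ZFN o c L n : ℝ) : ℂ)‖ := by
              have := norm_add_le (Av c L n - ((Mc_ZFN o c L n : ℝ) : ℂ)) ((Mc_ZFN o c L n : ℝ) : ℂ)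
              rwa [sub_add_cancel] at this
            have h2 : ‖((Mc_ZFN o c L n : ℝ) : ℂ)‖ ≤ (if c = c0_ZFN then (1 : ℝ) else 0) +
                |g c L n| := by
              rw [Complex.norm_real, hM c, Real.norm_eq_abs]
              refine (abs_sub _ _).trans ?_
              gcongr
              split_ifs <;> simp
            linarith
        _ ≤ m ^ 2 / 50 + (1 + (1 - 3 / 8 * m)) := by
            rw [sum_add_distrib, sum_add_distrib, hone]
            linarith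
        _ ≤ 3 := by linarith
    · intro u _
      rw [Complex.re_sum]
      have hterm : ∀ c ∈ PS P, -‖Av c L n - ((Mc_ZFN o c L n : ℝ) : ℂ)‖ +
          ((if c = c0_ZFN then (1 : ℝ) else 0) - |g c L n|) ≤
            ((starRingEnd ℂ) (c.ev u) * Av c L n).re := by
        intro c _
        have e1 : (starRingEnd ℂ) (c.ev u) * Av c L n =
            (starRingEnd ℂ) (c.ev u) * (Av c L n - ((Mc_ZFN o c L n : ℝ) : ℂ)) +
            (starRingEnd ℂ) (c.ev u) * ((Mc_ZFN o c L n : ℝ) : ℂ) := by ring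
        rw [e1, Complex.add_re]
        have e2 : -‖Av c L n - ((Mc_ZFN o c L n : ℝ) : ℂ)‖ ≤
            ((starRingEnd ℂ) (c.ev u) * (Av c L n - ((Mc_ZFN o c L n : ℝ) : ℂ))).re := by
          have h1 := Complex.abs_re_le_norm
            ((starRingEnd ℂ) (c.ev u) * (Av c L n - ((Mc_ZFN o c L n : ℝ) : ℂ)))
          have h2 : ‖(starRingEnd ℂ) (c.ev u) * (Av c L n - ((Mc_ZFN o c L n : ℝ) : ℂ))‖ ≤
              ‖Av c L n - ((Mc_ZFN o c L n : ℝ) : ℂ)‖ := by
            rw [norm_mul, RCLike.norm_conj]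
            exact mul_le_of_le_one_left (norm_nonneg _) (ev_norm_ZFN c u)
          have h3 := neg_le_of_abs_le (h1.trans h2)
          exact h3
        have e3 : (if c = c0_ZFN then (1 : ℝ) else 0) - |g c L n| ≤
            ((starRingEnd ℂ) (c.ev u) * ((Mc_ZFN o c L n : ℝ) : ℂ)).re := by
          rw [Complex.re_mul_ofReal, hM c]
          by_cases hc : c = c0_ZFN
          · rw [if_pos hc, hc, c0_ev_ZFN, map_one, Complex.one_re, one_mul, ← hc]
            linarith [le_abs_self (g c L n)]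
          · rw [if_neg hc, zero_sub, zero_sub, mul_neg, neg_le_neg_iff]
            have h1 : |((starRingEnd ℂ) (c.ev u)).re| ≤ 1 := by
              refine (Complex.abs_re_le_norm _).trans ?_
              rw [RCLike.norm_conj]
              exact ev_norm_ZFN c u
            calc ((starRingEnd ℂ) (c.ev u)).re * g c L n
                ≤ |((starRingEnd ℂ) (c.ev u)).re * g c L n| := le_abs_self _
              _ = |((starRingEnd ℂ) (c.ev u)).re| * |g c L n| := abs_mul _ _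
              _ ≤ |g c L n| := mul_le_of_le_one_left (abs_nonneg _) h1
        linarith
      calc 3 / 10 * m ≤ -(m ^ 2 / 50) + (1 - (1 - 3 / 8 * m)) := by linarith
        _ ≤ ∑ c ∈ PS P, (-‖Av c L n - ((Mc_ZFN o c L n : ℝ) : ℂ)‖ +
          ((if c = c0_ZFN then (1 : ℝ) else 0) - |g c L n|)) := by
            rw [sum_add_distrib, sum_sub_distrib, hone, sum_neg_distrib]
            linarith
        _ ≤ _ := sum_le_sum hterm

private theorem big_ZFN {B a Z : ℝ} (hB : 0 < B) (ha : 0 < a) (hZ : B ^ (1 / a) ≤ Z) : B ≤ Z ^ a := by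
  calc B = (B ^ (1 / a)) ^ a := by
        rw [← Real.rpow_mul hB.le, one_div, inv_mul_cancel₀ ha.ne', Real.rpow_one]
    _ ≤ Z ^ a := Real.rpow_le_rpow (by positivity) hZ ha.le

/-- ZFN -/
theorem hZfn (hZ : Pool.Agent.Helper23.MV.StZer) (hF : Pool.Agent.Helper23.MV.StFin) (hA : StAve)
    (hT : StTws) (hC : StCps) : StZfn := by
  classical
  intro K κ hK hκ
  obtain ⟨ηz, hηz0, hηz1, hZ⟩ := hZ
  obtain ⟨ηa, hηa0, hηa1, hA⟩ := hA
  obtain ⟨ηt, hηt0, hηt1, hT⟩ := hT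
  obtain ⟨η, hη0, h1, h2, h3, h4⟩ : ∃ η : ℝ, 0 < η ∧ η ≤ ηz ∧ η ≤ ηa ∧ η ≤ ηt ∧ η ≤ 100000 * κ := by
    refine ⟨min (min ηz ηa) (min ηt (100000 * κ)), ?_, ?_, ?_, ?_, ?_⟩
    · have : 0 < 100000 * κ := by positivity
      exact lt_min (lt_min hηz0 hηa0) (lt_min hηt0 this)
    · exact (min_le_left _ _).trans (min_le_left _ _)
    · exact (min_le_left _ _).trans (min_le_right _ _)
    · exact (min_le_right _ _).trans (min_le_left _ _)
    · exact (min_le_right _ _).trans (min_le_right _ _)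
  have hη1 : η ≤ 1 / 100 := h1.trans hηz1
  obtain ⟨Ca, Xa, hCa, hXa, hA⟩ := hA η hη0 h2 (2 * K) (by linarith)
  obtain ⟨Ct, Xt, Pt, hCt, hXt, hPt, hT⟩ := hT η hη0 h3 K hK
  obtain ⟨C, hCCa, hCCt⟩ : ∃ C : ℝ, Ca ≤ C ∧ Ct ≤ C := ⟨max Ca Ct, le_max_left _ _, le_max_right _ _⟩
  have hC1 : 1 ≤ C := hCa.trans hCCa
  obtain ⟨δ₀, Xz, hδ0, hδ1, hXz, hZ⟩ := hZ η hη0 h1 (1 / (100 * C)) (by positivity)
  refine ⟨δ₀, max (max Xa Xt) (max Xz (max ((400 * C) ^ (1 / (η / 20)))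
    ((max 4 Pt) ^ (1 / (δ₀ / 400))))), hδ0, by linarith, ?_, ?_⟩
  · exact hXa.trans ((le_max_left _ _).trans (le_max_left _ _))
  intro Z hZZ
  have g1 : Xa ≤ Z := ((le_max_left _ _).trans (le_max_left _ _)).trans hZZ
  have g2 : Xt ≤ Z := ((le_max_right _ _).trans (le_max_left _ _)).trans hZZ
  have g3 : Xz ≤ Z := ((le_max_left _ _).trans (le_max_right _ _)).trans hZZ
  have g4 : (400 * C) ^ (1 / (η / 20)) ≤ Z :=
    (((le_max_left _ _).trans (le_max_right _ _)).trans (le_max_right _ _)).trans hZZ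
  have g5 : (max 4 Pt) ^ (1 / (δ₀ / 400)) ≤ Z :=
    (((le_max_right _ _).trans (le_max_right _ _)).trans (le_max_right _ _)).trans hZZ
  have hZ2 : 2 ≤ Z := hXa.trans g1
  have hZ0 : 0 < Z := by linarith
  have hZ1 : 1 ≤ Z := by linarith
  have g4' : 400 * C ≤ Z ^ (η / 20) := big_ZFN (by positivity) (by positivity) g4
  have g5' : max 4 Pt ≤ Z ^ (δ₀ / 400) :=
    big_ZFN (lt_of_lt_of_le (by norm_num) (le_max_left _ _)) (by positivity) g5
  obtain ⟨P, hP1, hP2, hcase⟩ := hZ Z g3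
  have hPpos : 0 < P := lt_of_lt_of_le (by positivity) hP1
  have hP1' : 1 ≤ P := (Real.one_le_rpow hZ1 (by positivity)).trans hP1
  have hPPt : Pt ≤ P := by
    calc Pt ≤ max 4 Pt := le_max_right _ _
      _ ≤ Z ^ (δ₀ / 400) := g5'
      _ ≤ Z ^ (δ₀ / 2) := Real.rpow_le_rpow_of_exponent_le hZ1 (by linarith)
      _ ≤ P := hP1
  have hPη : P ≤ Z ^ (η / 1000) :=
    hP2.trans (Real.rpow_le_rpow_of_exponent_le hZ1 (by linarith))
  -- the common part
  have main : ∀ (o : Option (PCh × ℝ)) (m : ℝ) (g : PCh → ℕ → ℕ → ℝ), OKb o η → 0 < m → m ≤ 1 →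
      P ^ (-(1 / 100) : ℝ) ≤ m ^ 2 →
      ∑ c ∈ PS P, ZS o c (2 * η) Z (√Z) ≤ 1 / (100 * C) * m ^ 2 →
      (∀ (L n : ℕ), 1 ≤ L → 2 * (L : ℝ) ≤ n → 2 * √Z ≤ n →
        (∀ c : PCh, Mc_ZFN o c L n = (if c = c0_ZFN then 1 else 0) - g c L n) ∧
        ∑ c ∈ PS P, |g c L n| ≤ 1 - 3 / 8 * m) →
      P ^ (-(1 / 100) : ℝ) ≤ 3 / 10 * m ∧ 3 / 10 * m ≤ 1 ∧ Dat K Z P (3 / 10 * m) := by
    intro o m g hok hm0 hm1 hmP hsum hg
    refine key_ZFN (η := η) (C := C) (δ₀ := δ₀) o g hF.1 (hC.1 P hP1') ?_ ?_ hK hη0 hη1 hC1 hδ0 hδ1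
      hZ2 g4' ((le_max_left _ _).trans g5') hP1 hP2 hm0 hm1 hmP hsum hg
    · intro c n L hc hn1 hn2 hL1 hL2
      refine (hA Z o c n L g1 hok hc hn1 hn2 hL1 hL2).trans ?_
      apply mul_le_mul_of_nonneg_right hCCa
      apply add_nonneg
      · unfold Pool.Agent.Helper23.MV.ZS
        exact sum_nonneg fun ρ _ => mul_nonneg (Nat.cast_nonneg _)
          (Real.rpow_nonneg (Real.sqrt_nonneg _) _)
      · have : 0 ≤ Z ^ (-(η / 10)) := Real.rpow_nonneg hZ0.le _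
        positivity
    · intro β Y y hY1 hY2 hy hβ
      refine (hT Z P (1 / (100 * C) * m ^ 2) β o Y y g2 hPPt hPη hok hsum hY1 hY2 hy hβ).trans ?_
      apply mul_le_mul_of_nonneg_right _ (Nat.cast_nonneg _)
      have h5 : Ct * (1 / (100 * C) * m ^ 2) ≤ C * (1 / (100 * C) * m ^ 2) :=
        mul_le_mul_of_nonneg_right hCCt (by positivity)
      have h6 : C * (1 / (100 * C) * m ^ 2) = m ^ 2 / 100 := by
        have : C ≠ 0 := by linarith
        field_simp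
      have h7 : m ^ 2 ≤ 1 := by nlinarith
      linarith
  rcases hcase with hnone | ⟨e, δ, heRe, her, hδp, hδη, hLz, hmz, hmP, hsum⟩
  · have hm := main none 1 (fun _ _ _ => 0) (fun e δ h => by simp at h) one_pos le_rfl
      (by
        rw [one_pow]
        calc P ^ (-(1 / 100) : ℝ) ≤ P ^ (0 : ℝ) :=
              Real.rpow_le_rpow_of_exponent_le hP1' (by norm_num)
          _ = 1 := Real.rpow_zero P)
      (by rw [one_pow, mul_one]; exact hnone)
      (fun L n hL _ _ => ⟨fun c => M_none_ZFN c L n hL, by simp; norm_num⟩)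
    exact ⟨P, 3 / 10 * 1, hP1, hP2, hm.1, hm.2.1, hm.2.2⟩
  · have hlog : 0 < Real.log Z := Real.log_pos (by linarith)
    have hm0 : 0 < min 1 (δ * Real.log Z) := lt_min one_pos (by positivity)
    have hm := main (some (e, δ)) (min 1 (δ * Real.log Z))
      (fun c L n => if c = e then (1 / (L : ℝ)) * ∑ j ∈ range L, ((n - j : ℕ) : ℝ) ^ (-δ) else 0)
      (by
        intro e' δ' h
        simp only [Option.some.injEq, Prod.mk.injEq] at h
        obtain ⟨h, h'⟩ := h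
        subst h
        subst h'
        exact ⟨heRe, hδp, hδη, hLz, hmz⟩)
      hm0 (min_le_left _ _) hmP hsum
      (by
        intro L n hL hLn hn
        refine ⟨fun c => M_some_ZFN e c δ L n hL, ?_⟩
        have hb := exc_ZFN (by linarith) hδp hm0 (min_le_left _ _) (min_le_right _ _) L n hL hLn hn
        calc ∑ c ∈ PS P, |if c = e then (1 / (L : ℝ)) * ∑ j ∈ range L, ((n - j : ℕ) : ℝ) ^ (-δ) else 0|
            = ∑ c ∈ PS P, (if c = e then |(1 / (L : ℝ)) * ∑ j ∈ range L, ((n - j : ℕ) : ℝ) ^ (-δ)| else 0) := by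
              refine sum_congr rfl fun c _ => ?_
              split_ifs <;> simp
          _ ≤ |(1 / (L : ℝ)) * ∑ j ∈ range L, ((n - j : ℕ) : ℝ) ^ (-δ)| := by
              rw [sum_ite_eq' (PS P) e (fun _ => |(1 / (L : ℝ)) * ∑ j ∈ range L, ((n - j : ℕ) : ℝ) ^ (-δ)|)]
              split_ifs
              · exact le_rfl
              · exact abs_nonneg _
          _ ≤ _ := hb)
    exact ⟨P, 3 / 10 * min 1 (δ * Real.log Z), hP1, hP2, hm.1, hm.2.1, hm.2.2⟩

end Pool.Agent.Helper32.PB
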